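import Pool.Agent.H14.BR.Stm
import Pool.Agent.H46.RF.PRB

/-!
Crew BR, parts DMD and SGR: the measure condition is definable in the model, and the set of the
regular sets of reals is in the model.
-/

set_option autoImplicit false
set_option linter.unreachableTactic false
set_option linter.unusedTactic false

namespace H39.BR

open ZFSet (pair)
open Pool.Agent.W868
open MeasureTheory H14.ES H46.RF H14.BR

lemma nat_sub {k m : ℕ} : nat k ⊆ nat m ↔ k ≤ m := by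
  constructor
  · intro h
    by_contra hlt
    have h1 : nat m ∈ nat k := (mem_nat_iff _ _).2 ⟨m, by omega, rfl⟩
    obtain ⟨j, hj, h2⟩ := (mem_nat_iff _ _).1 (h h1)
    have := nat_injective h2
    omega
  · intro h x hx
    obtain ⟨j, hj, rfl⟩ := (mem_nat_iff _ _).1 hx
    exact (mem_nat_iff _ _).2 ⟨j, by omega, rfl⟩

/-- the set theoretic version of the measure condition; `z0` is the word `0 ^ k` -/
def CondZ (M : Set ZFSet.{0}) (Wd Ln T k : ZFSet.{0}) : Prop :=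
  ∃ z0 ∈ Wd, pair z0 k ∈ Ln ∧ (∀ j ∈ (ZFSet.omega : ZFSet.{0}), ¬ pair j (nat 1) ∈ z0) ∧
    ∀ m ∈ (ZFSet.omega : ZFSet.{0}), k ⊆ m → ∃ f ∈ M,
      (∀ x ∈ Wd, pair x m ∈ Ln → ¬ x ∈ T → ∃ y ∈ Wd, pair y m ∈ Ln ∧ z0 ⊆ y ∧ pair x y ∈ f) ∧
      ∀ a ∈ M, ∀ a' ∈ M, ∀ b ∈ M, pair a b ∈ f → pair a' b ∈ f → a = a'

/-- the set theoretic version of the relation of DMD -/
def RelZ (M : Set ZFSet.{0}) (Wd Ln T k : ZFSet.{0}) : Prop :=
  (T ⊆ Wd ∧ ∀ a ∈ T, ∀ b ∈ Wd, b ⊆ a → b ∈ T) ∧ k ∈ (ZFSet.omega : ZFSet.{0}) ∧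
    CondZ M Wd Ln T k

lemma dfn_relZ {M : Set ZFSet.{0}} (hM : IsZF M) {Wd Ln : ZFSet.{0}} (hWd : Wd ∈ M)
    (hLn : Ln ∈ M) : Dfn M M fun w : Fin 2 → ZFSet.{0} => RelZ M Wd Ln (w 0) (w 1) := by
  have hB := hM.base
  have hom : (ZFSet.omega : ZFSet.{0}) ∈ M := hM.infinity
  have h1 : nat 1 ∈ M := hM.nat_mem 1
  unfold RelZ CondZ
  (repeat' first
      | assumption
      | exact DfnF.proj _
      | exact DfnF.const (by assumption)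
      | apply Dfn.not | apply Dfn.and | apply Dfn.or | apply Dfn.imp | apply Dfn.iff
      | apply hB.subset'
      | apply hB.bex | apply hB.ball | apply Dfn.ex | apply Dfn.all
      | apply Dfn.eq | apply Dfn.mem | apply hB.pair')

lemma condZ_iff (hQ : S_DMQ) {M : Set ZFSet.{0}} (hM : IsZF M) {Wd Ln : ZFSet.{0}}
    (hW : ∀ z, z ∈ Wd ↔ ∃ r n, z = ini r n) (hL : ∀ z, z ∈ Ln ↔ ∃ r n, z = pair (ini r n) (nat n))
    {T : ZFSet.{0}} (hT : IsTree T) (k : ℕ) :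
    CondZ M Wd Ln T (nat k) ↔ 1 ≤ mu ℕ (body T) + (2 ^ k)⁻¹ := by
  have hLn2 : ∀ (x : ZFSet.{0}) (m : ℕ), pair x (nat m) ∈ Ln ↔ ∃ r, x = ini r m := by
    intro x m
    rw [hL]
    constructor
    · rintro ⟨r, n, h⟩
      obtain ⟨h1, h2⟩ := ZFSet.pair_inj.1 h
      have := nat_injective h2
      subst this
      exact ⟨r, h1⟩
    · rintro ⟨r, rfl⟩
      exact ⟨r, m, rfl⟩
  have hb1 : nat 1 = bz true := by simp [bz]
  have hz0 : ∀ z0 : ZFSet.{0}, (pair z0 (nat k) ∈ Ln ∧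
      ∀ j ∈ (ZFSet.omega : ZFSet.{0}), ¬ pair j (nat 1) ∈ z0) ↔ z0 = ini (fun _ => false) k := by
    intro z0
    rw [hLn2]
    constructor
    · rintro ⟨⟨r, rfl⟩, h⟩
      refine (ini_eq _ _ _ _).2 ⟨rfl, fun i hi => ?_⟩
      by_contra hc
      refine h (nat i) (mem_omega_iff.2 ⟨i, rfl⟩) ((pair_mem_ini _ _ _ _).2 ⟨hi, ?_⟩)
      rw [hb1]
      congr 1
      cases hr : r i
      · exact absurd hr hc
      · rfl
    · rintro rfl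
      refine ⟨⟨_, rfl⟩, fun j hj h => ?_⟩
      obtain ⟨j, rfl⟩ := mem_omega_iff.1 hj
      have h2 := ((pair_mem_ini _ _ _ _).1 h).2
      rw [hb1] at h2
      exact absurd (bz_inj h2) (by simp)
  have hcyl : ∀ (y : ℕ → Bool) (m : ℕ), k ≤ m →
      (ini (fun _ => false) k ⊆ ini y m ↔ y ∈ cyl (fun _ => false) k) := by
    intro y m hkm
    rw [ini_sub]
    exact ⟨fun h i hi => (h.2 i hi).symm, fun h => ⟨hkm, fun i hi => (h i hi).symm⟩⟩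
  rw [hQ M hM T hT k]
  constructor
  · rintro ⟨z0, -, h1, h2, h3⟩ n hn
    have e := (hz0 z0).1 ⟨h1, h2⟩
    subst e
    obtain ⟨f, hf, h4, h5⟩ := h3 (nat n) (mem_omega_iff.2 ⟨n, rfl⟩) (nat_sub.2 hn)
    refine ⟨f, hf, ?_, ?_⟩
    · intro x hx
      obtain ⟨y, -, hy, hy2, hy3⟩ := h4 (ini x n) ((hW _).2 ⟨x, n, rfl⟩) ((hLn2 _ _).2 ⟨x, rfl⟩) hx
      obtain ⟨y, rfl⟩ := (hLn2 _ _).1 hy
      exact ⟨y, (hcyl _ _ hn).1 hy2, hy3⟩
    · intro a a' b hab hab'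
      have e1 := hM.of_pair_mem (hM.trans _ hf _ hab)
      have e2 := hM.of_pair_mem (hM.trans _ hf _ hab')
      exact h5 a e1.1 a' e2.1 b e1.2 hab hab'
  · intro h
    have h0 := (hz0 (ini (fun _ => false) k)).2 rfl
    refine ⟨ini (fun _ => false) k, (hW _).2 ⟨_, _, rfl⟩, h0.1, h0.2, ?_⟩
    intro m hm hkm
    obtain ⟨m, rfl⟩ := mem_omega_iff.1 hm
    have hkm' := nat_sub.1 hkm
    obtain ⟨f, hf, h4, h5⟩ := h m hkm'
    refine ⟨f, hf, ?_, fun a _ a' _ b _ => h5 a a' b⟩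
    intro x _ hx hxT
    obtain ⟨x, rfl⟩ := (hLn2 _ _).1 hx
    obtain ⟨y, hy, hy2⟩ := h4 x hxT
    exact ⟨ini y m, (hW _).2 ⟨_, _, rfl⟩, (hLn2 _ _).2 ⟨y, rfl⟩, (hcyl _ _ hkm').2 hy, hy2⟩

/-- DMD -/
theorem dmd (hQ : S_DMQ) : S_DMD := by
  intro M hM
  obtain ⟨Wd, hWM, hW⟩ := exists_Wd hM
  obtain ⟨Ln, hLM, hL⟩ := exists_Ln hM
  refine (dfn_relZ hM hWM hLM).congr fun v _ => ?_
  unfold RelZ
  rw [← isTree_iff hW]
  constructor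
  · rintro ⟨h1, h2, h3⟩
    obtain ⟨k, hk⟩ := mem_omega_iff.1 h2
    rw [hk] at h3
    exact ⟨h1, k, hk, (condZ_iff hQ hM hW hL h1 k).1 h3⟩
  · rintro ⟨h1, k, hk, h2⟩
    refine ⟨h1, mem_omega_iff.2 ⟨k, hk⟩, ?_⟩
    rw [hk]
    exact (condZ_iff hQ hM hW hL h1 k).2 h2

/-! ### SGR -/

lemma isTree_union {T T' : ZFSet.{0}} (h : IsTree T) (h' : IsTree T') : IsTree (T ∪ T') := by
  constructor
  · intro z hz
    rcases ZFSet.mem_union.1 hz with hz | hz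
    · exact h.word z hz
    · exact h'.word z hz
  · intro r n hn
    rcases ZFSet.mem_union.1 hn with hz | hz
    · exact ZFSet.mem_union.2 (Or.inl (h.down r n hz))
    · exact ZFSet.mem_union.2 (Or.inr (h'.down r n hz))

/-- the set theoretic version of `Reg` -/
def RegZ (M : Set ZFSet.{0}) (Wd Re : ZFSet.{0}) (R : ZFSet.{0} → ZFSet.{0} → Prop) (b : ZFSet.{0}) :
    Prop :=
  ∀ k ∈ (ZFSet.omega : ZFSet.{0}), ∃ T ∈ M, ∃ T' ∈ M,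
    (T ⊆ Wd ∧ ∀ c ∈ T, ∀ d ∈ Wd, d ⊆ c → d ∈ T) ∧
    (T' ⊆ Wd ∧ ∀ c ∈ T', ∀ d ∈ Wd, d ⊆ c → d ∈ T') ∧
    (∀ x ∈ Re, (∀ z ∈ Wd, z ⊆ x → z ∈ T) → x ∈ b) ∧
    (∀ x ∈ Re, (∀ z ∈ Wd, z ⊆ x → z ∈ T') → ¬ x ∈ b) ∧ R (T ∪ T') k

lemma dfn_regZ {M : Set ZFSet.{0}} (hM : IsZF M) {Wd Re : ZFSet.{0}} (hWd : Wd ∈ M)
    (hRe : Re ∈ M) {R : ZFSet.{0} → ZFSet.{0} → Prop}
    (hR : Dfn M M fun w : Fin 2 → ZFSet.{0} => R (w 0) (w 1)) :
    Dfn M M fun w : Fin 1 → ZFSet.{0} => RegZ M Wd Re R (w 0) := by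
  have hB := hM.base
  have hom : (ZFSet.omega : ZFSet.{0}) ∈ M := hM.infinity
  unfold RegZ
  refine hB.ball (DfnF.const hom) ?_
  refine Dfn.ex ?_
  refine Dfn.ex ?_
  refine Dfn.and ?_ (Dfn.and ?_ (Dfn.and ?_ (Dfn.and ?_ ?_)))
  rotate_right
  · exact Dfn.comp2 (Q := R) hR (hB.union' (DfnF.proj (1 : Fin 4)) (DfnF.proj (0 : Fin 4)))
      (DfnF.proj (2 : Fin 4))
  all_goals
    (repeat' first
      | assumption
      | exact DfnF.proj _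
      | exact DfnF.const (by assumption)
      | apply Dfn.not | apply Dfn.and | apply Dfn.or | apply Dfn.imp | apply Dfn.iff
      | apply hB.subset'
      | apply hB.bex | apply hB.ball | apply Dfn.ex | apply Dfn.all
      | apply Dfn.eq | apply Dfn.mem | apply hB.pair')

/-- SGR -/
theorem sgr (hD : S_DMD) (hZ : S_ZRL) : S_SGR := by
  intro M hM
  obtain ⟨Wd, hWM, hW⟩ := exists_Wd hM
  obtain ⟨hz1, hz2, hz3⟩ := hZ
  obtain ⟨⟨Re, hReM, hRe⟩, -, -⟩ := hz3 M hM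
  obtain ⟨Q, hQM, hQ⟩ := hM.exists_pow hReM
  set R : ZFSet.{0} → ZFSet.{0} → Prop := fun T k =>
    IsTree T ∧ ∃ j : ℕ, k = nat j ∧ 1 ≤ mu ℕ (body T) + (2 ^ j)⁻¹ with hRdef
  have hR : Dfn M M fun w : Fin 2 → ZFSet.{0} => R (w 0) (w 1) := hD M hM
  refine ⟨ZFSet.sep (fun b => RegZ M Wd Re R b) Q,
    hM.sep_mem (Q := fun b => RegZ M Wd Re R b) (dfn_regZ hM hWM hReM hR) hQM, fun b => ?_⟩
  have hbody : ∀ (T : ZFSet.{0}) (s : ℕ → Bool), (∀ z ∈ Wd, z ⊆ zr s → z ∈ T) ↔ s ∈ body T := by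
    intro T s
    constructor
    · intro h n
      exact h _ ((hW _).2 ⟨s, n, rfl⟩) ((hz1 _ _ _).2 fun _ _ => rfl)
    · intro h z hz hzs
      obtain ⟨r, n, rfl⟩ := (hW z).1 hz
      have e : ini r n = ini s n := (ini_eq _ _ _ _).2 ⟨rfl, (hz1 _ _ _).1 hzs⟩
      rw [e]
      exact h n
  have hins : ∀ T b : ZFSet.{0}, (∀ x ∈ Re, (∀ z ∈ Wd, z ⊆ x → z ∈ T) → x ∈ b) ↔ Ins M T b := by
    intro T b
    constructor
    · intro h s hs hsM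
      exact h _ ((hRe _).2 ⟨hsM, s, rfl⟩) ((hbody T s).2 hs)
    · intro h x hx hxT
      obtain ⟨hxM, s, rfl⟩ := (hRe _).1 hx
      exact h s ((hbody T s).1 hxT) hxM
  have hout : ∀ T b : ZFSet.{0}, (∀ x ∈ Re, (∀ z ∈ Wd, z ⊆ x → z ∈ T) → ¬ x ∈ b) ↔ Out M T b := by
    intro T b
    constructor
    · intro h s hs hsM
      exact h _ ((hRe _).2 ⟨hsM, s, rfl⟩) ((hbody T s).2 hs)
    · intro h x hx hxT
      obtain ⟨hxM, s, rfl⟩ := (hRe _).1 hx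
      exact h s ((hbody T s).1 hxT) hxM
  rw [ZFSet.mem_sep, hQ]
  constructor
  · rintro ⟨⟨hbM, hbR⟩, h⟩
    refine ⟨hbM, fun x hx => (hRe x).1 (hbR hx), fun k => ?_⟩
    obtain ⟨T, hT, T', hT', h1, h2, h3, h4, h5⟩ := h (nat k) (mem_omega_iff.2 ⟨k, rfl⟩)
    refine ⟨T, hT, T', hT', (isTree_iff hW).2 h1, (isTree_iff hW).2 h2, (hins T b).1 h3,
      (hout T' b).1 h4, ?_⟩
    obtain ⟨-, j, hj, h6⟩ := h5
    rw [nat_injective hj]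
    exact h6
  · rintro ⟨hbM, hbR, h⟩
    refine ⟨⟨hbM, fun x hx => (hRe x).2 (hbR x hx)⟩, ?_⟩
    intro k hk
    obtain ⟨k, rfl⟩ := mem_omega_iff.1 hk
    obtain ⟨T, hT, T', hT', h1, h2, h3, h4, h5⟩ := h k
    exact ⟨T, hT, T', hT', (isTree_iff hW).1 h1, (isTree_iff hW).1 h2, (hins T b).2 h3,
      (hout T' b).2 h4, isTree_union h1 h2, k, rfl, h5⟩

end H39.BR
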